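import Pool.Agent.Helper19.PM.Goals
import Pool.Agent.Helper29.BL.PS

/-!
# Project P1M (MP_a41896_nt), packet CHW: `log ρ_v` is summable
-/

set_option autoImplicit false

open MvPolynomial

namespace Pool.Agent.Helper12.PM

open WeierstrassCurve Height
open Pool.Agent.Helper29.BL Pool.Agent.Helper92.Ru Pool.Agent.Helper42.SG
open Pool.Agent.Helper68.VN hiding xs Good nz
open Pool.Agent.Helper19.PM

noncomputable section

theorem t_CHW : Pool.Agent.Helper19.PM.CHW := by
  intro K _ _ σ _ J _ w f x hk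
  obtain ⟨k, hk⟩ := hk
  have hM : ∀ (v : AbsoluteValue K ℝ) (j : J), 0 < ∏ i, Mv v (x i) ^ w j i := fun v j =>
    Finset.prod_pos fun i _ => pow_pos (Mv_pos v (x i)) _
  have hq : ∀ v : AbsoluteValue K ℝ, 0 < v (eval x (f k)) / ∏ i, Mv v (x i) ^ w k i := fun v =>
    div_pos (v.pos hk) (hM v k)
  have hS : ∀ v : AbsoluteValue K ℝ, v (eval x (f k)) / ∏ i, Mv v (x i) ^ w k i ≤
      ⨆ j, v (eval x (f j)) / ∏ i, Mv v (x i) ^ w j i := fun v =>
    le_ciSup (f := fun j => v (eval x (f j)) / ∏ i, Mv v (x i) ^ w j i)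
      (Set.finite_range _).bddAbove k
  have hpos : ∀ v : AbsoluteValue K ℝ, 0 < rhoW w f v x := fun v =>
    lt_min one_pos ((hq v).trans_le (hS v))
  have hle : ∀ v : AbsoluteValue K ℝ, rhoW w f v x ≤ 1 := fun v => min_le_left _ _
  refine ⟨?_, fun v => ⟨hpos v, hle v⟩⟩
  have hF : FS (fun v : AbsoluteValue K ℝ =>
      (∑ i, (w k i : ℝ) * Real.log (Mv v (x i))) - Real.log (v (eval x (f k)))) :=
    (FS.sum _ fun i _ => (FS_log_Mv (x i)).const_mul _).sub (FS_log hk)
  refine hF.mono fun v _ h0 => ?_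
  have hlq : Real.log (v (eval x (f k)) / ∏ i, Mv v (x i) ^ w k i) = 0 := by
    rw [Real.log_div (v.pos hk).ne' (hM v k).ne',
      Real.log_prod fun i _ => (pow_pos (Mv_pos v (x i)) _).ne']
    simp only [Real.log_pow]
    linarith
  have h1 : v (eval x (f k)) / ∏ i, Mv v (x i) ^ w k i = 1 :=
    Real.eq_one_of_pos_of_log_eq_zero (hq v) hlq
  have h2 : rhoW w f v x = 1 := by
    refine le_antisymm (hle v) (le_min le_rfl ?_)
    rw [← h1]
    exact hS v
  rw [h2, Real.log_one]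

end

end Pool.Agent.Helper12.PM
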