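import Pool.Agent.Helper19.PM.GoalsS
import Pool.Agent.Helper16.UN.HVB

/-!
# Project TN (MP_a41896_nt), packet CODS: the codimension of the generic fibre
-/

set_option autoImplicit false

open MvPolynomial

namespace Pool.Agent.Helper12.PM

open Pool.Agent.Helper5.UN (CodimGT hv)
open Pool.Agent.Helper19.PM

noncomputable section

section hvlemmas

theorem hv_monomial {R A : Type} [CommRing R] [CommRing A] (φ : R →+* A) {σ : Type} [Fintype σ]
    (E : σ → ℕ) (m : σ →₀ ℕ) (a : R) (y : σ → Fin 2 → A) :
    hv φ E (monomial m a) y = φ a * ∏ i, (y i 0 ^ m i * y i 1 ^ (E i - m i)) := by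
  classical
  unfold hv
  by_cases ha : a = 0
  · simp [ha]
  · rw [support_monomial, if_neg ha, Finset.sum_singleton, coeff_monomial, if_pos rfl]

theorem hv_add {R A : Type} [CommRing R] [CommRing A] (φ : R →+* A) {σ : Type} [Fintype σ]
    (E : σ → ℕ) (f g : MvPolynomial σ R) (y : σ → Fin 2 → A) :
    hv φ E (f + g) y = hv φ E f y + hv φ E g y :=
  Pool.Agent.Helper16.UN.gHVB.1 R A φ σ E f g y

end hvlemmas

section fg

variable {K : Type} [Field K] {σ : Type} [Fintype σ] [DecidableEq σ] (S : Finset σ)

omit [Fintype σ] in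
theorem fG_add (f g : MvPolynomial σ K) : fG S (f + g) = fG S f + fG S g := by
  unfold fG
  rw [map_add]

theorem split {M : Type} [CommMonoid M] (g : σ → M) :
    ∏ i, g i = (∏ i : {i // i ∈ S}, g i.1) * ∏ i : {i // i ∉ S}, g i.1 := by
  have h := Fintype.prod_subtype_mul_prod_subtype (fun i => i ∈ S) g
  have e : (Subtype.fintype fun i => i ∈ S : Fintype {i // i ∈ S}) = Finset.Subtype.fintype S :=
    Subsingleton.elim _ _
  rw [e] at h
  exact h.symm

/-- the restriction of the exponents to the complement of `S` -/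
def res (m : σ →₀ ℕ) : {i // i ∉ S} →₀ ℕ := Finsupp.equivFunOnFinite.symm fun i => m i.1

theorem res_apply (m : σ →₀ ℕ) (i : {i // i ∉ S}) : res S m i = m i.1 := rfl

theorem fG_monomial (m : σ →₀ ℕ) (a : K) :
    fG S (monomial m a) = monomial (res S m) (algebraMap K (KS K S) a *
      ∏ i : {i // i ∈ S}, algebraMap (MvPolynomial {i // i ∈ S} K) (KS K S) (X i) ^ m i.1) := by
  have h0 : fG S (monomial m a) = algebraMap K (MvPolynomial {i // i ∉ S} (KS K S)) a *
      ∏ i : σ, (if h : i ∈ S then
      C (algebraMap (MvPolynomial {i // i ∈ S} K) (KS K S) (X ⟨i, h⟩)) else X ⟨i, h⟩ :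
      MvPolynomial {i // i ∉ S} (KS K S)) ^ m i := by
    unfold fG
    rw [aeval_monomial, Finsupp.prod_fintype _ _ (fun i => pow_zero _)]
  rw [h0, split S]
  have h1 : (∏ i : {i // i ∈ S}, (if h : i.1 ∈ S then
      C (algebraMap (MvPolynomial {i // i ∈ S} K) (KS K S) (X ⟨i.1, h⟩)) else X ⟨i.1, h⟩ :
      MvPolynomial {i // i ∉ S} (KS K S)) ^ m i.1) =
      C (∏ i : {i // i ∈ S}, algebraMap (MvPolynomial {i // i ∈ S} K) (KS K S) (X i) ^ m i.1) := by
    rw [map_prod]
    refine Finset.prod_congr rfl fun i _ => ?_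
    rw [dif_pos i.2, map_pow]
  have h2 : (∏ i : {i // i ∉ S}, (if h : i.1 ∈ S then
      C (algebraMap (MvPolynomial {i // i ∈ S} K) (KS K S) (X ⟨i.1, h⟩)) else X ⟨i.1, h⟩ :
      MvPolynomial {i // i ∉ S} (KS K S)) ^ m i.1) = monomial (res S m) 1 := by
    rw [monomial_eq, Finsupp.prod_fintype _ _ (fun i => pow_zero _), map_one, one_mul]
    refine Finset.prod_congr rfl fun i _ => ?_
    rw [dif_neg i.2, res_apply]
  rw [h1, h2, ← mul_assoc, MvPolynomial.algebraMap_apply, ← map_mul, C_mul_monomial, mul_one]

theorem deg_fG (f : MvPolynomial σ K) (i : {i // i ∉ S}) :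
    degreeOf i (fG S f) ≤ degreeOf i.1 f := by
  classical
  have key : ∀ s : Finset (σ →₀ ℕ), s ⊆ f.support →
      degreeOf i (fG S (∑ m ∈ s, monomial m (coeff m f))) ≤ degreeOf i.1 f := by
    intro s
    induction s using Finset.induction_on with
    | empty =>
      intro _
      rw [Finset.sum_empty]
      unfold fG
      rw [map_zero, degreeOf_zero]
      exact Nat.zero_le _
    | insert m s hm ih =>
      intro hs
      rw [Finset.sum_insert hm, fG_add]
      refine (degreeOf_add_le _ _ _).trans (max_le ?_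
        (ih ((Finset.subset_insert m s).trans hs)))
      rw [fG_monomial, degreeOf_eq_sup]
      refine Finset.sup_le fun m' hm' => ?_
      rw [support_monomial] at hm'
      split_ifs at hm' with h
      · exact absurd hm' (Finset.notMem_empty _)
      · rw [Finset.mem_singleton.1 hm', res_apply]
        have h1 := hs (Finset.mem_insert_self m s)
        rw [degreeOf_eq_sup]
        exact Finset.le_sup (f := fun m : σ →₀ ℕ => m i.1) h1
  have h := key f.support (Finset.Subset.refl _)
  rwa [← as_sum] at h

theorem hv_fG (Ω : Type) [Field Ω] [Algebra (KS K S) Ω] (D : ℕ) (f : MvPolynomial σ K)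
    (y : {i // i ∉ S} → Fin 2 → Ω) :
    hv (algebraMap (KS K S) Ω) (fun _ => D) (fG S f) y =
      hv ((algebraMap (KS K S) Ω).comp (algebraMap K (KS K S))) (fun _ => D) f
        (fun i => if h : i ∈ S then
          ![algebraMap (KS K S) Ω (algebraMap (MvPolynomial {i // i ∈ S} K) (KS K S) (X ⟨i, h⟩)), 1]
          else y ⟨i, h⟩) := by
  induction f using MvPolynomial.induction_on' with
  | monomial m a =>
    rw [fG_monomial, hv_monomial, hv_monomial, split S, map_mul, map_prod, mul_assoc]
    congr 1
    congr 1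
    · refine Finset.prod_congr rfl fun i _ => ?_
      rw [dif_pos i.2, map_pow]
      simp
    · refine Finset.prod_congr rfl fun i _ => ?_
      rw [dif_neg i.2, res_apply]
  | add f g hf hg => rw [fG_add, hv_add, hv_add, hf, hg]

end fg

section alg

open Set

theorem card_le {K : Type} [Field K] {Ω : Type} [Field Ω] [Algebra K Ω] {ι : Type} [Fintype ι]
    (z : ι → Ω) (hz : AlgebraicIndependent K z) (T : Finset Ω)
    (h : ∀ i, IsAlgebraic (IntermediateField.adjoin K (T : Set Ω)) (z i)) :
    Fintype.card ι ≤ T.card := by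
  have hinj : Function.Injective z := hz.injective
  have h1 : (AlgebraicIndependent.matroid K Ω).Indep (range z) := by
    rw [AlgebraicIndependent.matroid_indep_iff]
    exact hz.coe_range
  have h2 : range z ⊆ (AlgebraicIndependent.matroid K Ω).closure (T : Set Ω) := by
    rintro _ ⟨i, rfl⟩
    rw [AlgebraicIndependent.matroid_closure_eq, SetLike.mem_coe, Subalgebra.mem_algebraicClosure]
    exact IntermediateField.isAlgebraic_adjoin_iff.1 (h i)
  have h3 := h1.encard_le_eRk_of_subset h2
  rw [Matroid.eRk_closure_eq] at h3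
  have h4 := h3.trans (Matroid.eRk_le_encard _ _)
  rw [← image_univ, hinj.encard_image, Set.encard_univ, ENat.card_eq_coe_fintype_card,
    Set.encard_coe_eq_coe_finsetCard] at h4
  exact_mod_cast h4

end alg

theorem t_CODS : Pool.Agent.Helper19.PM.CODS := by
  classical
  intro K _ σ _ _ S D s J f hD hcod
  refine ⟨fun j i => (deg_fG S (f j) i).trans (hD j i.1), ?_⟩
  intro Ω _ _ y hy hzero
  letI : Algebra K Ω := ((algebraMap (KS K S) Ω).comp (algebraMap K (KS K S))).toAlgebra
  haveI : IsScalarTower K (KS K S) Ω := IsScalarTower.of_algebraMap_eq' rfl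
  set x : {i // i ∈ S} → KS K S := fun i =>
    algebraMap (MvPolynomial {i // i ∈ S} K) (KS K S) (X i) with hx
  obtain ⟨T, hT, halg⟩ := hcod Ω (fun i => if h : i ∈ S then
      ![algebraMap (KS K S) Ω (x ⟨i, h⟩), 1] else y ⟨i, h⟩)
    (by
      intro i
      by_cases h : i ∈ S
      · left; simp [h]
      · simpa [h] using hy ⟨i, h⟩)
    (by
      intro j
      have := hzero j
      rw [hv_fG] at this
      exact this)
  have hS : ∀ i : {i // i ∈ S}, IsAlgebraic (IntermediateField.adjoin K (T : Set Ω))
      (algebraMap (KS K S) Ω (x i)) := by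
    intro i
    have := halg i.1
    rw [dif_pos i.2] at this
    simpa using this
  have hS' : ∀ i : {i // i ∉ S}, IsAlgebraic (IntermediateField.adjoin K (T : Set Ω))
      (y i 0) := by
    intro i
    have := halg i.1
    rw [dif_neg i.2] at this
    exact this
  have hxind : AlgebraicIndependent K x := by
    have h1 : AlgebraicIndependent K (X : {i // i ∈ S} → MvPolynomial {i // i ∈ S} K) :=
      MvPolynomial.algebraicIndependent_X _ _
    have h2 := h1.map' (f := IsScalarTower.toAlgHom K (MvPolynomial {i // i ∈ S} K) (KS K S))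
      (IsFractionRing.injective _ _)
    exact h2
  obtain ⟨B, hB⟩ := (AlgebraicIndependent.matroid (KS K S) Ω).exists_isBasis
    (Set.range fun i => y i 0)
  rw [AlgebraicIndependent.matroid_isBasis_iff] at hB
  obtain ⟨hBi, hBs, hBa⟩ := hB
  have hBfin : B.Finite := (Set.finite_range _).subset hBs
  haveI : Fintype B := hBfin.fintype
  have hind := hxind.sumElim_comp (A := Ω) (y := fun b : B => (b : Ω)) hBi
  have hcard := card_le _ hind T (by
    rintro (b | i)
    · obtain ⟨j, hj⟩ := hBs b.2
      rw [Sum.elim_inl, ← hj]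
      exact hS' j
    · exact hS i)
  refine ⟨B.toFinset, ?_, ?_⟩
  · rw [Fintype.card_sum] at hcard
    have h1 : B.toFinset.card = Fintype.card B := Set.toFinset_card B
    have h2 : Fintype.card {i // i ∈ S} + Fintype.card {i // i ∉ S} = Fintype.card σ := by
      rw [Fintype.card_subtype_compl]
      have := Fintype.card_subtype_le (fun i => i ∈ S)
      omega
    omega
  · intro i
    rw [Set.coe_toFinset]
    exact IntermediateField.isAlgebraic_adjoin_iff.2 (hBa _ ⟨i, rfl⟩)

end

end Pool.Agent.Helper12.PM
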